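import Pool.Agent.L7h20.NF.Stm3

/-! [INDY] of project NF (helper20). -/

set_option autoImplicit false

open Set Filter Topology Metric Function
open scoped Manifold ContDiff

noncomputable section

namespace Pool.Agent.L7h21.NF

open Pool.Agent.Y522 Pool.Agent.L7h20.NF

section

variable {m a : ℕ} {X Y : Type} [TopologicalSpace X] [ChartedSpace (E (m + 1)) X]
  [TopologicalSpace Y] [ChartedSpace (E (m + 1)) Y]

theorem dd_add (P Q R : E (m + 1) →L[ℝ] E (m + 1)) : dd P (Q + R) = dd P Q + dd P R := by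
  unfold dd
  rw [map_add]

theorem dd_smul (P Q : E (m + 1) →L[ℝ] E (m + 1)) (c : ℝ) : dd P (c • Q) = c * dd P Q := by
  unfold dd
  rw [map_smul, smul_eq_mul]

theorem dd_zero (P : E (m + 1) →L[ℝ] E (m + 1)) : dd P 0 = 0 := by
  unfold dd
  rw [map_zero]

theorem Brho_cd {κ : Y → E a} {ρ : E a → Y} {U : Set (E a)} (hR : Ret (m := m) κ ρ U)
    {B : Y → E (m + 1)} {y : Y} (hB : LD (m + 1) B y) :
    ∀ᶠ u in 𝓝 (κ y), ContDiffAt ℝ ∞ (fun u => B (ρ u)) u := by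
  have h1 : ContinuousAt ρ (κ y) := (hR.smr _ (hR.mem y)).continuousAt
  have h2 : Tendsto ρ (𝓝 (κ y)) (𝓝 y) := by
    have := h1.tendsto
    rwa [hR.ret] at this
  filter_upwards [h2.eventually hB.eventually, hR.op.mem_nhds (hR.mem y)] with u hu1 hu2
  exact contMDiffAt_iff_contDiffAt.1 (hu1.contMDiffAt.comp u (hR.smr u hu2))

/-- the section in coordinates is smooth -/
theorem T_cd {κ : Y → E a} {ρ : E a → Y} {U : Set (E a)} (hR : Ret (m := m) κ ρ U)
    {f : X → Y} (hf : ContMDiff (𝓡 (m + 1)) (𝓡 (m + 1)) ∞ f) {V : X → E a}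
    (hV : SmA (m := m) V) {A : E (m + 1) → X} {B : Y → E (m + 1)} {z : E (m + 1)}
    (hA : LD (m + 1) A z) (hB : LD (m + 1) B (f (A z))) :
    ContDiffAt ℝ ∞ (fun w => dV κ ρ f V B (A w)) z := by
  unfold dV
  have h1 := Brho_cd hR hB
  have h2 : ContDiffAt ℝ ∞ (fderiv ℝ (fun u => B (ρ u))) (κ (f (A z))) :=
    h1.self_of_nhds.fderiv_right (by simp)
  have h3 : ContMDiffAt (𝓡 (m + 1)) (𝓡 a) ∞ (fun w => κ (f (A w))) z :=
    (hR.smk.contMDiffAt).comp z ((hf.contMDiffAt).comp z hA.contMDiffAt)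
  have h4 : ContDiffAt ℝ ∞ (fun w => κ (f (A w))) z := contMDiffAt_iff_contDiffAt.1 h3
  have h5 : ContMDiffAt (𝓡 (m + 1)) (𝓡 a) ∞ (fun w => V (A w)) z :=
    (hV.contMDiffAt).comp z hA.contMDiffAt
  have h6 : ContDiffAt ℝ ∞ (fun w => V (A w)) z := contMDiffAt_iff_contDiffAt.1 h5
  exact (h2.comp z h4).clm_apply h6

theorem g_cd {f : X → Y} (hf : ContMDiff (𝓡 (m + 1)) (𝓡 (m + 1)) ∞ f)
    {A : E (m + 1) → X} {B : Y → E (m + 1)} {z : E (m + 1)}
    (hA : LD (m + 1) A z) (hB : LD (m + 1) B (f (A z))) :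
    ContDiffAt ℝ ∞ (fun w => B (f (A w))) z :=
  contMDiffAt_iff_contDiffAt.1 (hB.contMDiffAt.comp z ((hf.contMDiffAt).comp z hA.contMDiffAt))

theorem ev_cd {f : X → Y} (hf : ContMDiff (𝓡 (m + 1)) (𝓡 (m + 1)) ∞ f)
    {A : E (m + 1) → X} {B : Y → E (m + 1)} {z : E (m + 1)}
    (hA : LD (m + 1) A z) (hB : LD (m + 1) B (f (A z))) :
    ∀ᶠ w in 𝓝 z, LD (m + 1) A w ∧ LD (m + 1) B (f (A w)) := by
  have h1 : Tendsto (fun w => f (A w)) (𝓝 z) (𝓝 (f (A z))) :=
    ((hf.continuous.continuousAt).comp hA.continuousAt).tendsto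
  exact hA.eventually.and (h1.eventually hB.eventually)

/-- at the points with nonzero Jacobian the map is a local diffeomorphism, and conversely -/
theorem ld_iff {f : X → Y} (hf : ContMDiff (𝓡 (m + 1)) (𝓡 (m + 1)) ∞ f)
    {A : E (m + 1) → X} {B : Y → E (m + 1)} {z : E (m + 1)}
    (hA : LD (m + 1) A z) (hB : LD (m + 1) B (f (A z))) :
    LD (m + 1) f (A z) ↔ (dY f A B z).det ≠ 0 := by
  constructor
  · intro h
    have h1 : LD (m + 1) (fun w => B (f (A w))) z :=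
      LD.comp_fun (f := fun w => f (A w)) (g := B) hB (LD.comp_fun (f := A) (g := f) h hA)
    obtain ⟨L, hL⟩ := h1.exists_equiv
    unfold dY
    rw [hL.fderiv]
    have h2 : ((L : E (m + 1) →L[ℝ] E (m + 1))).det =
        LinearMap.det ((L.toLinearEquiv : E (m + 1) ≃ₗ[ℝ] E (m + 1)) :
          E (m + 1) →ₗ[ℝ] E (m + 1)) := rfl
    rw [h2]
    exact (LinearEquiv.isUnit_det' L.toLinearEquiv).ne_zero
  · intro h
    have h1 : ∀ᶠ w in 𝓝 z, ContDiffAt ℝ ∞ (fun w => B (f (A w))) w := by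
      filter_upwards [ev_cd hf hA hB] with w hw
      exact g_cd hf hw.1 hw.2
    have h2 : LD (m + 1) (fun w => B (f (A w))) z := by
      refine LD_of_contDiffAt h1
        (ContinuousLinearMap.toContinuousLinearEquivOfDetNeZero (dY f A B z) h) ?_
      rw [ContinuousLinearMap.coe_toContinuousLinearEquivOfDetNeZero]
      exact (h1.self_of_nhds.differentiableAt (by simp)).hasFDerivAt
    obtain ⟨p, hp1, hp2, hp3, hp4⟩ := hA.exists_inverse
    obtain ⟨q, hq1, hq2, hq3, hq4⟩ := hB.exists_inverse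
    have h3 : LD (m + 1) (fun x => B (f (A (p x)))) (A z) := by
      have h4 : LD (m + 1) (fun w => B (f (A w))) (p (A z)) := by rw [hp2]; exact h2
      exact LD.comp_fun (f := p) (g := fun w => B (f (A w))) h4 hp1
    have h5 : LD (m + 1) (fun x => q (B (f (A (p x))))) (A z) := by
      have h6 : LD (m + 1) q (B (f (A (p (A z))))) := by rw [hp2]; exact hq1
      exact LD.comp_fun (f := fun x => B (f (A (p x)))) (g := q) h6 h3
    refine h5.congr ?_
    have h7 : Tendsto f (𝓝 (A z)) (𝓝 (f (A z))) := hf.continuous.continuousAt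
    filter_upwards [hp4, h7.eventually hq3] with x hx1 hx2
    rw [hx1, hx2]

end

theorem s_INDY (hDET : S_DET1) : S_INDY := by
  intro m a X Y _ _ _ _ _ _ κ ρ U f hR hf A B z A' B' z' hzz hsing hC hC'
  obtain ⟨hdet1, hdet2, hdet3, -⟩ := hDET m
  have hA := hC.ld
  have hB := hC.lb
  have hA' := hC'.ld
  have hB' := hC'.lb
  obtain ⟨p, hp1, hp2, hp3, hp4⟩ := hA.exists_inverse
  obtain ⟨q, hq1, hq2, hq3, hq4⟩ := hB.exists_inverse
  set x : X := A z with hx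
  set ψ : E (m + 1) → E (m + 1) := fun w => p (A' w) with hψ
  set Λ : E (m + 1) → E (m + 1) := fun v => B' (q v) with hΛ
  set g : E (m + 1) → E (m + 1) := fun w => B (f (A w)) with hg
  have hψz : ψ z' = z := by rw [hψ]; simp only; rw [← hzz, hp2]
  have hψLD : LD (m + 1) ψ z' := by
    have h1 : LD (m + 1) p (A' z') := by rw [← hzz]; exact hp1
    exact LD.comp_fun (f := A') (g := p) h1 hA'
  have hΛLD : LD (m + 1) Λ (g z) := by
    have h1 : LD (m + 1) B' (q (B (f x))) := by rw [hq2, hzz]; exact hB'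
    exact LD.comp_fun (f := q) (g := B') h1 hq1
  have hA'x : Tendsto A' (𝓝 z') (𝓝 x) := by
    have := hA'.continuousAt.tendsto
    rwa [← hzz] at this
  have hfx : Tendsto f (𝓝 x) (𝓝 (f x)) := hf.smooth.continuous.continuousAt
  have hAψ : ∀ᶠ w in 𝓝 z', A (ψ w) = A' w := hA'x.eventually hp4
  have hψc : Tendsto ψ (𝓝 z') (𝓝 z) := by
    have := hψLD.continuousAt.tendsto
    rwa [hψz] at this
  have hB'Λ : ∀ᶠ y in 𝓝 (f x), B' y = Λ (B y) := by
    filter_upwards [hq3] with y hy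
    rw [hΛ]; simp only; rw [hy]
  have hg' : (fun w => B' (f (A' w))) =ᶠ[𝓝 z'] fun w => Λ (g (ψ w)) := by
    filter_upwards [hAψ, hA'x.eventually (hfx.eventually hB'Λ)] with w hw1 hw2
    rw [hw2, hg]
    simp only
    rw [hw1]
  have hgcd := g_cd hf.smooth hA hB
  -- derivatives near the points
  have hd : ∀ᶠ w in 𝓝 z', dY f A' B' w =
      (fderiv ℝ Λ (g (ψ w))).comp ((dY f A B (ψ w)).comp (fderiv ℝ ψ w)) := by
    have e1 : ∀ᶠ w in 𝓝 z', LD (m + 1) ψ w := hψLD.eventually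
    have e2 : ∀ᶠ w in 𝓝 z', LD (m + 1) A (ψ w) ∧ LD (m + 1) B (f (A (ψ w))) :=
      hψc.eventually (ev_cd hf.smooth hA hB)
    have e3 : ∀ᶠ w in 𝓝 z', LD (m + 1) Λ (g (ψ w)) :=
      (hgcd.continuousAt.tendsto.comp hψc).eventually hΛLD.eventually
    filter_upwards [e1, e2, e3, hg'.eventuallyEq_nhds] with w hw1 hw2 hw3 hw4
    have k1 : HasFDerivAt ψ (fderiv ℝ ψ w) w :=
      (hw1.contDiffAt.differentiableAt (by simp)).hasFDerivAt
    have k2 : HasFDerivAt g (dY f A B (ψ w)) (ψ w) :=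
      ((g_cd hf.smooth hw2.1 hw2.2).differentiableAt (by simp)).hasFDerivAt
    have k3 : HasFDerivAt Λ (fderiv ℝ Λ (g (ψ w))) (g (ψ w)) :=
      (hw3.contDiffAt.differentiableAt (by simp)).hasFDerivAt
    have k4 : HasFDerivAt (fun w => Λ (g (ψ w)))
        ((fderiv ℝ Λ (g (ψ w))).comp ((dY f A B (ψ w)).comp (fderiv ℝ ψ w))) w :=
      HasFDerivAt.comp (g := Λ) (f := g ∘ ψ) w k3 (k2.comp w k1)
    have k5 : fderiv ℝ (fun w => B' (f (A' w))) w = fderiv ℝ (fun w => Λ (g (ψ w))) w :=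
      hw4.fderiv_eq
    change fderiv ℝ (fun w => B' (f (A' w))) w = _
    rw [k5, k4.fderiv]
  have hdz := hd.self_of_nhds
  rw [hψz] at hdz
  obtain ⟨Lψ, hLψ⟩ := hψLD.exists_equiv
  obtain ⟨LΛ, hLΛ⟩ := hΛLD.exists_equiv
  have hdetL : ∀ L : E (m + 1) ≃L[ℝ] E (m + 1), (L : E (m + 1) →L[ℝ] E (m + 1)).det ≠ 0 := by
    intro L
    have h2 : ((L : E (m + 1) →L[ℝ] E (m + 1))).det =
        LinearMap.det ((L.toLinearEquiv : E (m + 1) ≃ₗ[ℝ] E (m + 1)) :
          E (m + 1) →ₗ[ℝ] E (m + 1)) := rfl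
    rw [h2]
    exact (LinearEquiv.isUnit_det' L.toLinearEquiv).ne_zero
  have hfψ : fderiv ℝ ψ z' = Lψ := hLψ.fderiv
  have hfΛ : fderiv ℝ Λ (g z) = LΛ := hLΛ.fderiv
  set c : ℝ := (LΛ : E (m + 1) →L[ℝ] E (m + 1)).det * (Lψ : E (m + 1) →L[ℝ] E (m + 1)).det with hc
  have hc0 : c ≠ 0 := mul_ne_zero (hdetL _) (hdetL _)
  have hdc : Continuous (fun T : E (m + 1) →L[ℝ] E (m + 1) => T.det) := hdet1.continuous
  -- the sign of `c`
  have hcpos : 0 < c := by
    by_contra hneg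
    have hneg' : c < 0 := lt_of_le_of_ne (not_lt.1 hneg) hc0
    have hcont : ContinuousAt (fun w => (fderiv ℝ Λ (g (ψ w))).det * (fderiv ℝ ψ w).det) z' := by
      have e1 : ContinuousAt (fderiv ℝ Λ) (g z) :=
        (hΛLD.contDiffAt.fderiv_right (m := 0) (by simp)).continuousAt
      have e2 : ContinuousAt (fun w => fderiv ℝ Λ (g (ψ w))) z' := by
        have e3 : ContinuousAt (fun w => g (ψ w)) z' := by
          have e4 : ContinuousAt g (ψ z') := by rw [hψz]; exact hgcd.continuousAt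
          exact e4.comp hψLD.continuousAt
        have e5 : ContinuousAt (fderiv ℝ Λ) (g (ψ z')) := by rw [hψz]; exact e1
        exact ContinuousAt.comp (f := fun w => g (ψ w)) e5 e3
      have e6 : ContinuousAt (fderiv ℝ ψ) z' :=
        (hψLD.contDiffAt.fderiv_right (m := 0) (by simp)).continuousAt
      exact (hdc.continuousAt.comp e2).mul (hdc.continuousAt.comp e6)
    have hval : (fderiv ℝ Λ (g (ψ z'))).det * (fderiv ℝ ψ z').det < 0 := by
      rw [hψz, hfψ, hfΛ]; exact hneg'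
    have hev := hcont.eventually_lt_const hval
    have h1 := hψc.eventually hC.nn
    have h2 := hC'.nn
    have h3 : ∀ᶠ w in 𝓝 z', LD (m + 1) A' w ∧ LD (m + 1) B' (f (A' w)) := by
      have hB'' : LD (m + 1) B' (f (A' z')) := hB'
      exact ev_cd hf.smooth hA' hB''
    have h4 : ∀ᶠ w in 𝓝 z', LD (m + 1) A (ψ w) ∧ LD (m + 1) B (f (A (ψ w))) :=
      hψc.eventually (ev_cd hf.smooth hA hB)
    have h5 := (((((hev.and h1).and h2).and h3).and h4).and hAψ).and hd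
    have h6 := hA'.image_mem_nhds h5
    obtain ⟨_, ⟨w, hw, rfl⟩, hwd⟩ := mem_closure_iff_nhds.1 (hf.dense (A' z')) _ h6
    obtain ⟨⟨⟨⟨⟨⟨hw1, hw2⟩, hw3⟩, hw4⟩, hw5⟩, hw6⟩, hw7⟩ := hw
    have hwd' : LD (m + 1) f (A' w) := hwd
    have n1 := (ld_iff hf.smooth hw4.1 hw4.2).1 hwd'
    have n2 : (dY f A B (ψ w)).det ≠ 0 := by
      apply (ld_iff hf.smooth hw5.1 hw5.2).1
      rw [hw6]; exact hwd'
    have p1 : 0 < (dY f A' B' w).det := lt_of_le_of_ne hw3 (Ne.symm n1)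
    have p2 : 0 < (dY f A B (ψ w)).det := lt_of_le_of_ne hw2 (Ne.symm n2)
    rw [hw7] at p1
    have e7 : ((fderiv ℝ Λ (g (ψ w))).comp ((dY f A B (ψ w)).comp (fderiv ℝ ψ w))).det =
        (fderiv ℝ Λ (g (ψ w))).det * (fderiv ℝ ψ w).det * (dY f A B (ψ w)).det := by
      have e8 : ∀ P Q : E (m + 1) →L[ℝ] E (m + 1), (P.comp Q).det = P.det * Q.det := by
        intro P Q
        exact LinearMap.det_comp (P : E (m + 1) →ₗ[ℝ] E (m + 1)) (Q : E (m + 1) →ₗ[ℝ] E (m + 1))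
      rw [e8, e8]
      ring
    rw [e7] at p1
    nlinarith [p1, p2, hw1]
  have hdetz : (dY f A B z).det = 0 := by
    by_contra h
    exact hsing ((ld_iff hf.smooth hA hB).2 h)
  refine ⟨c, hcpos, fun V hV => ?_⟩
  set T : E (m + 1) → E (m + 1) := fun w => dV κ ρ f V B (A w) with hT
  have hTcd : ContDiffAt ℝ ∞ T z := T_cd hR hf.smooth hV hA hB
  have hT' : (fun w => dV κ ρ f V B' (A' w)) =ᶠ[𝓝 z'] fun w =>
      (fderiv ℝ Λ (g (ψ w))) (T (ψ w)) := by
    have e1 : ∀ᶠ y in 𝓝 (f x), LD (m + 1) B y ∧ LD (m + 1) Λ (B y) ∧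
        ∀ᶠ y' in 𝓝 y, B' y' = Λ (B y') := by
      refine hB.eventually.and (Filter.Eventually.and ?_ hB'Λ.eventually_nhds)
      exact hB.continuousAt.tendsto.eventually hΛLD.eventually
    filter_upwards [hAψ, hA'x.eventually (hfx.eventually e1)] with w hw1 hw2
    obtain ⟨hw3, hw4, hw5⟩ := hw2
    have e2 : (fun u => B' (ρ u)) =ᶠ[𝓝 (κ (f (A' w)))] fun u => Λ (B (ρ u)) := by
      have h1 : ContinuousAt ρ (κ (f (A' w))) := (hR.smr _ (hR.mem _)).continuousAt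
      have h2 := h1.tendsto
      rw [hR.ret] at h2
      exact h2.eventually hw5
    have e3 : HasFDerivAt (fun u => B (ρ u)) (fderiv ℝ (fun u => B (ρ u)) (κ (f (A' w))))
        (κ (f (A' w))) :=
      ((Brho_cd hR hw3).self_of_nhds.differentiableAt (by simp)).hasFDerivAt
    have e4 : HasFDerivAt Λ (fderiv ℝ Λ (B (ρ (κ (f (A' w)))))) (B (ρ (κ (f (A' w))))) := by
      rw [hR.ret]
      exact (hw4.contDiffAt.differentiableAt (by simp)).hasFDerivAt
    have e5 := e4.comp (κ (f (A' w))) e3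
    have e6 : fderiv ℝ (fun u => B' (ρ u)) (κ (f (A' w))) =
        (fderiv ℝ Λ (B (ρ (κ (f (A' w)))))).comp (fderiv ℝ (fun u => B (ρ u)) (κ (f (A' w)))) := by
      rw [e2.fderiv_eq]
      exact e5.fderiv
    change (fderiv ℝ (fun u => B' (ρ u)) (κ (f (A' w)))) (V (A' w)) = _
    rw [e6, hR.ret]
    change _ = (fderiv ℝ Λ (B (f (A (ψ w))))) ((fderiv ℝ (fun u => B (ρ u))
      (κ (f (A (ψ w))))) (V (A (ψ w))))
    rw [hw1]
    rfl
  -- the derivative
  set S : E (m + 1) →L[ℝ] E (m + 1) := (fderiv ℝ (fderiv ℝ Λ) (g z)).flip (T z) with hS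
  have hTd : HasFDerivAt (fun w => (fderiv ℝ Λ (g (ψ w))) (T (ψ w)))
      ((fderiv ℝ Λ (g z)).comp ((fderiv ℝ T z).comp (Lψ : E (m + 1) →L[ℝ] E (m + 1))) +
        S.comp ((dY f A B z).comp (Lψ : E (m + 1) →L[ℝ] E (m + 1)))) z' := by
    have k0 : HasFDerivAt ψ (Lψ : E (m + 1) →L[ℝ] E (m + 1)) z' := hLψ
    have k1 : HasFDerivAt T (fderiv ℝ T z) (ψ z') := by
      rw [hψz]; exact (hTcd.differentiableAt (by simp)).hasFDerivAt
    have k2 : HasFDerivAt g (dY f A B z) (ψ z') := by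
      rw [hψz]; exact (hgcd.differentiableAt (by simp)).hasFDerivAt
    have k3 : HasFDerivAt (fderiv ℝ Λ) (fderiv ℝ (fderiv ℝ Λ) (g z)) (g (ψ z')) := by
      rw [hψz]
      exact ((hΛLD.contDiffAt.fderiv_right (m := ∞) (by simp)).differentiableAt
        (by simp)).hasFDerivAt
    have k4 := k3.comp z' (k2.comp z' k0)
    have k5 := k1.comp z' k0
    have k6 := k4.clm_apply k5
    refine k6.congr_fderiv ?_
    ext v
    simp only [Function.comp_apply, hψz]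
    rfl
  have hT'd : fderiv ℝ (fun w => dV κ ρ f V B' (A' w)) z' =
      (fderiv ℝ Λ (g z)).comp ((fderiv ℝ T z).comp (Lψ : E (m + 1) →L[ℝ] E (m + 1))) +
        S.comp ((dY f A B z).comp (Lψ : E (m + 1) →L[ℝ] E (m + 1))) := by
    rw [hT'.fderiv_eq, hTd.fderiv]
  unfold tauY
  rw [hT'd, dd_add, hdz, hfψ, hfΛ, hdet2]
  have hS2 : S.comp ((dY f A B z).comp (Lψ : E (m + 1) →L[ℝ] E (m + 1))) =
      (LΛ : E (m + 1) →L[ℝ] E (m + 1)).comp
        ((((LΛ.symm : E (m + 1) →L[ℝ] E (m + 1)).comp S).comp (dY f A B z)).comp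
          (Lψ : E (m + 1) →L[ℝ] E (m + 1))) := by
    ext v
    simp
  have hR2 : ∀ R P : E (m + 1) →L[ℝ] E (m + 1), P.det = 0 → dd P (R.comp P) = 0 := by
    intro R P hP
    have h1 := hdet2 (ContinuousLinearMap.id ℝ _) R (ContinuousLinearMap.id ℝ _) P
    rw [ContinuousLinearMap.id_comp, ContinuousLinearMap.id_comp, ContinuousLinearMap.id_comp,
      hP, mul_zero, zero_mul] at h1
    exact h1
  rw [hS2, hdet2, hR2 _ _ hdetz, mul_zero, add_zero]

end Pool.Agent.L7h21.NF
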