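import Pool.Agent.L7h21.NF.Indy

/-! [CONEY] of project NF (helper20). -/

set_option autoImplicit false

open Set Filter Topology Metric Function
open scoped Manifold ContDiff

noncomputable section

namespace Pool.Agent.L7h21.NF

open Pool.Agent.Y522 Pool.Agent.L7h20.NF

section

variable {m a : ℕ} {X Y : Type} [TopologicalSpace X] [ChartedSpace (E (m + 1)) X]
  [TopologicalSpace Y] [ChartedSpace (E (m + 1)) Y]

theorem dV_add (κ : Y → E a) (ρ : E a → Y) (f : X → Y) (V W : X → E a) (B : Y → E (m + 1)) (x : X) :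
    dV κ ρ f (fun y => V y + W y) B x = dV κ ρ f V B x + dV κ ρ f W B x := by
  unfold dV
  rw [map_add]

theorem dV_smul (κ : Y → E a) (ρ : E a → Y) (f : X → Y) (V : X → E a) (C : ℝ)
    (B : Y → E (m + 1)) (x : X) :
    dV κ ρ f (fun y => C • V y) B x = C • dV κ ρ f V B x := by
  unfold dV
  rw [map_smul]

theorem tauY_add {κ : Y → E a} {ρ : E a → Y} {U : Set (E a)} (hR : Ret (m := m) κ ρ U)
    {f : X → Y} (hf : ContMDiff (𝓡 (m + 1)) (𝓡 (m + 1)) ∞ f) {V W : X → E a}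
    (hV : SmA (m := m) V) (hW : SmA (m := m) W) {A : E (m + 1) → X} {B : Y → E (m + 1)}
    {z : E (m + 1)} (hA : LD (m + 1) A z) (hB : LD (m + 1) B (f (A z))) :
    tauY κ ρ f (fun y => V y + W y) A B z = tauY κ ρ f V A B z + tauY κ ρ f W A B z := by
  unfold tauY
  have h1 := (T_cd hR hf hV hA hB).differentiableAt (by simp)
  have h2 := (T_cd hR hf hW hA hB).differentiableAt (by simp)
  have h3 : (fun w => dV κ ρ f (fun y => V y + W y) B (A w)) =
      fun w => dV κ ρ f V B (A w) + dV κ ρ f W B (A w) := by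
    funext w
    exact dV_add _ _ _ _ _ _ _
  rw [h3, fderiv_fun_add h1 h2, dd_add]

theorem tauY_smul {κ : Y → E a} {ρ : E a → Y} {U : Set (E a)} (hR : Ret (m := m) κ ρ U)
    {f : X → Y} (hf : ContMDiff (𝓡 (m + 1)) (𝓡 (m + 1)) ∞ f) {V : X → E a}
    (hV : SmA (m := m) V) (C : ℝ) {A : E (m + 1) → X} {B : Y → E (m + 1)}
    {z : E (m + 1)} (hA : LD (m + 1) A z) (hB : LD (m + 1) B (f (A z))) :
    tauY κ ρ f (fun y => C • V y) A B z = C * tauY κ ρ f V A B z := by
  unfold tauY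
  have h1 := (T_cd hR hf hV hA hB).differentiableAt (by simp)
  have h3 : (fun w => dV κ ρ f (fun y => C • V y) B (A w)) =
      fun w => C • dV κ ρ f V B (A w) := by
    funext w
    exact dV_smul _ _ _ _ _ _ _
  rw [h3, fderiv_fun_const_smul h1, dd_smul]

theorem tauY_zero (κ : Y → E a) (ρ : E a → Y) (f : X → Y) (A : E (m + 1) → X)
    (B : Y → E (m + 1)) (z : E (m + 1)) : tauY κ ρ f (fun _ => (0 : E a)) A B z = 0 := by
  unfold tauY
  have h3 : (fun w => dV κ ρ f (fun _ => (0 : E a)) B (A w)) = fun _ => (0 : E (m + 1)) := by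
    funext w
    unfold dV
    rw [map_zero]
  rw [h3, fderiv_const_apply, dd_zero]

theorem tauY_cont (hDET : S_DET1) {κ : Y → E a} {ρ : E a → Y} {U : Set (E a)}
    (hR : Ret (m := m) κ ρ U)
    {f : X → Y} (hf : ContMDiff (𝓡 (m + 1)) (𝓡 (m + 1)) ∞ f) {V : X → E a}
    (hV : SmA (m := m) V) {A : E (m + 1) → X} {B : Y → E (m + 1)}
    {z : E (m + 1)} (hA : LD (m + 1) A z) (hB : LD (m + 1) B (f (A z))) :
    ContinuousAt (fun w => tauY κ ρ f V A B w) z := by
  obtain ⟨h1, -⟩ := hDET m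
  have h2 : Continuous (fderiv ℝ (fun T : E (m + 1) →L[ℝ] E (m + 1) => T.det)) :=
    h1.continuous_fderiv (by simp)
  have h3 : ContinuousAt (dY f A B) z :=
    ((g_cd hf hA hB).fderiv_right (m := 0) (by simp)).continuousAt
  have h4 : ContinuousAt (fderiv ℝ (fun w => dV κ ρ f V B (A w))) z :=
    ((T_cd hR hf hV hA hB).fderiv_right (m := 0) (by simp)).continuousAt
  unfold tauY dd
  exact (h2.continuousAt.comp h3).clm_apply h4

theorem CoY_ev {f : X → Y} (hf : ContMDiff (𝓡 (m + 1)) (𝓡 (m + 1)) ∞ f)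
    {A : E (m + 1) → X} {B : Y → E (m + 1)} {z : E (m + 1)} (h : CoY f A B z) :
    ∀ᶠ w in 𝓝 z, CoY f A B w := by
  filter_upwards [ev_cd hf h.ld h.lb, h.nn.eventually_nhds] with w hw1 hw2
  exact ⟨hw1.1, hw1.2, hw2⟩

end

theorem s_CONEY (hDET : S_DET1) (hI : S_INDY) : S_CONEY := by
  intro m a X Y _ _ _ _ _ _ κ ρ U f hR hf
  have key : ∀ (A : E (m + 1) → X) (B : Y → E (m + 1)) (z : E (m + 1)) (V : X → E a),
      SmA (m := m) V → ¬ LD (m + 1) f (A z) → CoY f A B z →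
      (NNY (m := m) κ ρ f V (A z) ↔ 0 ≤ tauY κ ρ f V A B z) ∧
      (PosY (m := m) κ ρ f V (A z) ↔ 0 < tauY κ ρ f V A B z) := by
    intro A B z V hV hs hC
    constructor
    · constructor
      · rintro ⟨A', B', z', hz, hC', h⟩
        obtain ⟨c, hc, hcV⟩ := hI m a X Y κ ρ U f hR hf A' B' z' A B z hz (by rw [hz]; exact hs)
          hC' hC
        rw [hcV V hV]
        exact mul_nonneg hc.le h
      · intro h
        exact ⟨A, B, z, rfl, hC, h⟩
    · constructor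
      · rintro ⟨A', B', z', hz, hC', h⟩
        obtain ⟨c, hc, hcV⟩ := hI m a X Y κ ρ U f hR hf A' B' z' A B z hz (by rw [hz]; exact hs)
          hC' hC
        rw [hcV V hV]
        exact mul_pos hc h
      · intro h
        exact ⟨A, B, z, rfl, hC, h⟩
  refine ⟨?_, ?_, ?_, ?_, ?_, ?_, key⟩
  · rintro V W x hV hW hs ⟨A, B, z, hz, hC, h⟩ hNW
    subst hz
    have h2 := ((key A B z W hW hs hC).1).1 hNW
    refine ⟨A, B, z, rfl, hC, ?_⟩
    rw [tauY_add hR hf.smooth hV hW hC.ld hC.lb]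
    exact add_nonneg h h2
  · rintro V W x hV hW hs ⟨A, B, z, hz, hC, h⟩ hNW
    subst hz
    have h2 := ((key A B z W hW hs hC).1).1 hNW
    refine ⟨A, B, z, rfl, hC, ?_⟩
    rw [tauY_add hR hf.smooth hV hW hC.ld hC.lb]
    exact add_pos_of_pos_of_nonneg h h2
  · rintro V x C hV hC0 hs ⟨A, B, z, hz, hC, h⟩
    refine ⟨A, B, z, hz, hC, ?_⟩
    have hld := hC.ld
    have hlb := hC.lb
    rw [tauY_smul hR hf.smooth hV C hC.ld hC.lb]
    exact mul_nonneg hC0 h
  · rintro V x hV hs ⟨A, B, z, hz, hC, h⟩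
    subst hz
    have h1 := (tauY_cont hDET hR hf.smooth hV hC.ld hC.lb).eventually_const_lt h
    have h2 := CoY_ev hf.smooth hC
    have h3 := hC.ld.image_mem_nhds (h1.and h2)
    filter_upwards [h3] with y hy _
    obtain ⟨w, ⟨hw1, hw2⟩, rfl⟩ := hy
    exact ⟨A, B, w, rfl, hw2, hw1⟩
  · rintro V x ⟨A, B, z, hz, hC, h⟩
    exact ⟨A, B, z, hz, hC, h.le⟩
  · intro x
    obtain ⟨A, B, z, hz, hC⟩ := hf.sign x
    exact ⟨A, B, z, hz, hC, (tauY_zero κ ρ f A B z).ge⟩

end Pool.Agent.L7h21.NF
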